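import Mathlib

/-!
# MP_395e41_an: practical stabilization entropy versus stabilization entropy

A stabilizable nonlinear control system in the plane with practical stabilization entropy `0` and
stabilization entropy `1`.
-/

set_option autoImplicit false

open Filter Topology MeasureTheory Set

namespace Pool.Agent.Results.MP_395e41_an.EntropyGap

/-! ### The notions of the problem -/

/-- Euclidean space of dimension `n` -/
abbrev E (n : ℕ) : Type := EuclideanSpace ℝ (Fin n)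

section Defs

variable {d m : ℕ}

/-- Admissible controls: measurable on `[0, ∞)` with values in `U` almost everywhere (only the
values on `[0, ∞)` matter). -/
def Admissible (U : Set (E m)) (u : ℝ → E m) : Prop :=
  AEStronglyMeasurable u (volume.restrict (Ici 0)) ∧ ∀ᵐ t ∂(volume.restrict (Ici (0 : ℝ))), u t ∈ U

/-- `x` is a (Carathéodory) solution of `x' = f (x, u)`, `x 0 = x₀`, on `[0, ∞)`. -/
def IsSolution (f : E d → E m → E d) (u : ℝ → E m) (x₀ : E d) (x : ℝ → E d) : Prop :=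
  ContinuousOn x (Ici 0) ∧ ∀ t, 0 ≤ t → ∀ i,
    IntervalIntegrable (fun s => f (x s) (u s) i) volume 0 t ∧
    x t i = x₀ i + ∫ s in (0 : ℝ)..t, f (x s) (u s) i

/-- `φ` is the solution map: existence, uniqueness and continuous dependence on `x₀`. -/
structure IsSolutionMap (f : E d → E m → E d) (U : Set (E m))
    (φ : ℝ → E d → (ℝ → E m) → E d) : Prop where
  isSolution : ∀ u, Admissible U u → ∀ x₀, IsSolution f u x₀ (fun t => φ t x₀ u)
  unique : ∀ u, Admissible U u → ∀ x₀ x, IsSolution f u x₀ x → ∀ t, 0 ≤ t → x t = φ t x₀ u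
  continuous : ∀ u, Admissible U u → ∀ t, 0 ≤ t → Continuous fun x₀ => φ t x₀ u

/-- `KL`-functions -/
structure IsKL (ζ : ℝ → ℝ → ℝ) : Prop where
  nonneg : ∀ r s, 0 ≤ r → 0 ≤ s → 0 ≤ ζ r s
  continuousOn : ContinuousOn (fun p : ℝ × ℝ => ζ p.1 p.2) (Ici 0 ×ˢ Ici 0)
  strictMonoOn : ∀ s, 0 ≤ s → StrictMonoOn (fun r => ζ r s) (Ici 0)
  zero : ∀ s, 0 ≤ s → ζ 0 s = 0
  strictAntiOn : ∀ r, 0 < r → StrictAntiOn (ζ r) (Ici 0)
  tendsto : ∀ r, 0 ≤ r → Tendsto (ζ r) atTop (𝓝 0)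

/-- the system is stabilizable for `ζ, Γ, Λ` -/
def Stabilizable (U : Set (E m)) (φ : ℝ → E d → (ℝ → E m) → E d) (ζ : ℝ → ℝ → ℝ)
    (Γ Λ : Set (E d)) : Prop :=
  ∀ x₀ ∈ Γ, ∃ u, Admissible U u ∧
    ∀ t, 0 ≤ t → Metric.infDist (φ t x₀ u) Λ ≤ ζ (Metric.infDist x₀ Λ) t

/-- spanning sets of controls -/
def Spanning (U : Set (E m)) (φ : ℝ → E d → (ℝ → E m) → E d) (ζ : ℝ → ℝ → ℝ)
    (Γ Λ : Set (E d)) (τ ε : ℝ) (S : Set (ℝ → E m)) : Prop :=
  (∀ u ∈ S, Admissible U u) ∧ ∀ x₀ ∈ Γ, ∃ u ∈ S, ∀ t ∈ Icc 0 τ,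
    Metric.infDist (φ t x₀ u) Λ ≤ ζ (Metric.infDist x₀ Λ + ε) t

/-- practically spanning sets of controls -/
def PracticallySpanning (U : Set (E m)) (φ : ℝ → E d → (ℝ → E m) → E d) (ζ : ℝ → ℝ → ℝ)
    (Γ Λ : Set (E d)) (τ ε : ℝ) (S : Set (ℝ → E m)) : Prop :=
  (∀ u ∈ S, Admissible U u) ∧ ∀ x₀ ∈ Γ, ∃ u ∈ S, ∀ t ∈ Icc 0 τ,
    Metric.infDist (φ t x₀ u) Λ ≤ ζ (Metric.infDist x₀ Λ + ε) t + ε

/-- the minimal cardinality of a set with the property `P` (`⊤` if there is no finite one) -/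
noncomputable def minCard (P : Set (ℝ → E m) → Prop) : ℕ∞ :=
  ⨅ (S : Set (ℝ → E m)) (_ : P S), S.encard

/-- `limsup_{τ → ∞} (1 / τ) log (r τ)` -/
noncomputable def rate (r : ℝ → ℕ∞) : EReal :=
  limsup (fun τ : ℝ => ENNReal.log (r τ : ENNReal) / (τ : EReal)) atTop

/-- `h_s(ε)` -/
noncomputable def hs (U : Set (E m)) (φ : ℝ → E d → (ℝ → E m) → E d) (ζ : ℝ → ℝ → ℝ)
    (Γ Λ : Set (E d)) (ε : ℝ) : EReal :=
  rate fun τ => minCard (Spanning U φ ζ Γ Λ τ ε)

/-- `h_ps(ε)` -/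
noncomputable def hps (U : Set (E m)) (φ : ℝ → E d → (ℝ → E m) → E d) (ζ : ℝ → ℝ → ℝ)
    (Γ Λ : Set (E d)) (ε : ℝ) : EReal :=
  rate fun τ => minCard (PracticallySpanning U φ ζ Γ Λ τ ε)

end Defs

/-! ### The example -/

/-- the right-hand side: `x₁' = u`, `x₂' = - (1 + x₁ ^ 2) x₂` -/
noncomputable def field (x : E 2) (u : E 1) : E 2 := !₂[u 0, -((1 + x 0 ^ 2) * x 1)]

/-- the control range `[-1, 1]` -/
def U : Set (E 1) := Metric.closedBall 0 1

/-- the set of initial states: the closed unit disc -/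
def Γ : Set (E 2) := Metric.closedBall 0 1

/-- the rate function `ζ (r, t) = r e^{-t}` -/
noncomputable def ζ (r t : ℝ) : ℝ := r * Real.exp (-t)

/-- the solution map -/
noncomputable def φ (t : ℝ) (x₀ : E 2) (u : ℝ → E 1) : E 2 :=
  !₂[x₀ 0 + ∫ s in (0 : ℝ)..t, u s 0,
    x₀ 1 * Real.exp (-∫ s in (0 : ℝ)..t, (1 + (x₀ 0 + ∫ r in (0 : ℝ)..s, u r 0) ^ 2))]

lemma field_zero (x : E 2) (u : E 1) : field x u 0 = u 0 := by simp [field]
lemma field_one (x : E 2) (u : E 1) : field x u 1 = -((1 + x 0 ^ 2) * x 1) := by simp [field]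
lemma φ_zero (t : ℝ) (x₀ : E 2) (u : ℝ → E 1) : φ t x₀ u 0 = x₀ 0 + ∫ s in (0 : ℝ)..t, u s 0 := by
  simp [φ]
lemma φ_one (t : ℝ) (x₀ : E 2) (u : ℝ → E 1) : φ t x₀ u 1 =
    x₀ 1 * Real.exp (-∫ s in (0 : ℝ)..t, (1 + (x₀ 0 + ∫ r in (0 : ℝ)..s, u r 0) ^ 2)) := by
  simp [φ]

lemma isKL_ζ : IsKL ζ where
  nonneg r s hr _ := mul_nonneg hr (Real.exp_pos _).le
  continuousOn := by
    unfold ζ
    fun_prop
  strictMonoOn s _ a _ b _ hab := mul_lt_mul_of_pos_right hab (Real.exp_pos _)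
  zero s _ := zero_mul _
  strictAntiOn r hr a _ b _ hab :=
    mul_lt_mul_of_pos_left (Real.exp_lt_exp.2 (neg_lt_neg hab)) hr
  tendsto r _ := by
    have : Tendsto (fun s : ℝ => r * Real.exp (-s)) atTop (𝓝 (r * 0)) :=
      (Real.tendsto_exp_neg_atTop_nhds_zero).const_mul r
    rwa [mul_zero] at this

/-- a continuous version of the integral of an admissible control -/
lemma exists_W {u : ℝ → E 1} (hu : Admissible U u) : ∃ W : ℝ → ℝ, Continuous W ∧
    (∀ t, 0 ≤ t → ∫ s in (0 : ℝ)..t, u s 0 = W t) ∧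
    ∀ t, 0 ≤ t → IntervalIntegrable (fun s => u s 0) volume 0 t := by
  have hm : AEStronglyMeasurable (fun s => u s 0) (volume.restrict (Ici 0)) :=
    (EuclideanSpace.proj (𝕜 := ℝ) (0 : Fin 1)).continuous.comp_aestronglyMeasurable hu.1
  have hb : ∀ᵐ s ∂(volume.restrict (Ici (0 : ℝ))), ‖u s 0‖ ≤ 1 := by
    filter_upwards [hu.2] with s hs
    have h1 : ‖u s‖ ≤ 1 := by simpa [U] using hs
    exact (PiLp.norm_apply_le (u s) 0).trans h1
  set w : ℝ → ℝ := (Ici (0 : ℝ)).indicator fun s => u s 0 with hw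
  have hwm : AEStronglyMeasurable w volume := by
    rw [hw, aestronglyMeasurable_indicator_iff measurableSet_Ici]
    exact hm
  have hwb : ∀ᵐ s ∂(volume : Measure ℝ), ‖w s‖ ≤ 1 := by
    rw [ae_restrict_iff' measurableSet_Ici] at hb
    filter_upwards [hb] with s hs
    rw [hw]
    by_cases h : s ∈ Ici (0 : ℝ)
    · rw [indicator_of_mem h]; exact hs h
    · rw [indicator_of_notMem h]; simp
  have hwi : ∀ a b : ℝ, IntervalIntegrable w volume a b := by
    intro a b
    rw [intervalIntegrable_iff]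
    apply Measure.integrableOn_of_bounded (M := 1)
    · exact (measure_Ioc_lt_top).ne
    · exact hwm
    · exact ae_restrict_of_ae hwb
  have heq : ∀ t, 0 ≤ t → EqOn (fun s => u s 0) w (uIoc 0 t) := by
    intro t ht s hs
    rw [uIoc_of_le ht] at hs
    have : s ∈ Ici (0 : ℝ) := hs.1.le
    rw [hw, indicator_of_mem this]
  refine ⟨fun t => ∫ s in (0 : ℝ)..t, w s, intervalIntegral.continuous_primitive hwi 0, ?_, ?_⟩
  · intro t ht
    exact intervalIntegral.integral_congr_ae (Eventually.of_forall (heq t ht))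
  · intro t ht
    exact (hwi 0 t).congr (heq t ht).symm

section Flow

variable {u : ℝ → E 1} {W : ℝ → ℝ}

/-- the exponent in the second coordinate -/
noncomputable def G (W : ℝ → ℝ) (a t : ℝ) : ℝ := ∫ s in (0 : ℝ)..t, (1 + (a + W s) ^ 2)

lemma hasDerivAt_G (hW : Continuous W) (a t : ℝ) : HasDerivAt (G W a) (1 + (a + W t) ^ 2) t :=
  intervalIntegral.integral_hasDerivAt_right
    ((by fun_prop : Continuous fun s => 1 + (a + W s) ^ 2).intervalIntegrable _ _)
    ((by fun_prop : Continuous fun s => 1 + (a + W s) ^ 2).stronglyMeasurableAtFilter _ _)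
    ((by fun_prop : Continuous fun s => 1 + (a + W s) ^ 2).continuousAt)

lemma φ_one' (h : ∀ t, 0 ≤ t → ∫ s in (0 : ℝ)..t, u s 0 = W t) {t : ℝ} (ht : 0 ≤ t) (x₀ : E 2) :
    φ t x₀ u 1 = x₀ 1 * Real.exp (-G W (x₀ 0) t) := by
  rw [φ_one, G]
  congr 3
  apply intervalIntegral.integral_congr
  intro s hs
  rw [uIcc_of_le ht] at hs
  simp only [h s hs.1]

lemma continuousOn_φ (hW : Continuous W) (h : ∀ t, 0 ≤ t → ∫ s in (0 : ℝ)..t, u s 0 = W t)
    (x₀ : E 2) : ContinuousOn (fun t => φ t x₀ u) (Ici 0) := by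
  have hG : Continuous (G W (x₀ 0)) :=
    continuous_iff_continuousAt.2 fun t => (hasDerivAt_G hW _ t).continuousAt
  have h1 : ContinuousOn (fun t => (!₂[x₀ 0 + W t, x₀ 1 * Real.exp (-G W (x₀ 0) t)] : E 2))
      (Ici 0) := by
    apply Continuous.continuousOn
    apply (PiLp.continuous_toLp 2 _).comp
    apply continuous_pi
    intro i
    fin_cases i
    · simpa using by fun_prop
    · simpa using by fun_prop
  apply h1.congr
  intro t ht
  ext i
  fin_cases i
  · simp [φ_zero, h t ht]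
  · simpa using φ_one' h ht x₀

lemma isSolution_φ (hW : Continuous W) (h : ∀ t, 0 ≤ t → ∫ s in (0 : ℝ)..t, u s 0 = W t)
    (hi : ∀ t, 0 ≤ t → IntervalIntegrable (fun s => u s 0) volume 0 t) (x₀ : E 2) :
    IsSolution field u x₀ (fun t => φ t x₀ u) := by
  refine ⟨continuousOn_φ hW h x₀, fun t ht i => ?_⟩
  fin_cases i
  · simp only [Fin.zero_eta, field_zero, φ_zero]
    exact ⟨hi t ht, trivial⟩
  · simp only [Fin.mk_one, field_one]
    set K : ℝ → ℝ := fun s => x₀ 1 * Real.exp (-G W (x₀ 0) s) with hK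
    set k : ℝ → ℝ := fun s => -((1 + (x₀ 0 + W s) ^ 2) * K s) with hk
    have hG : Continuous (G W (x₀ 0)) :=
      continuous_iff_continuousAt.2 fun t => (hasDerivAt_G hW _ t).continuousAt
    have hkc : Continuous k := by fun_prop
    have hKd : ∀ s, HasDerivAt K (k s) s := by
      intro s
      have := ((hasDerivAt_G hW (x₀ 0) s).neg.exp).const_mul (x₀ 1)
      refine this.congr_deriv ?_
      simp only [hk, hK, Pi.neg_apply]
      ring
    have heq : EqOn (fun s => -((1 + (φ s x₀ u) 0 ^ 2) * (φ s x₀ u) 1)) k (uIoc 0 t) := by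
      intro s hs
      rw [uIoc_of_le ht] at hs
      simp only [φ_zero, φ_one' h hs.1.le, h s hs.1.le, hk, hK]
    refine ⟨(hkc.intervalIntegrable _ _).congr heq.symm, ?_⟩
    rw [intervalIntegral.integral_congr_ae (Eventually.of_forall heq),
      intervalIntegral.integral_eq_sub_of_hasDerivAt (fun s _ => hKd s)
        (hkc.intervalIntegrable _ _), φ_one' h ht]
    simp [hK, G]

lemma unique_φ (hW : Continuous W) (h : ∀ t, 0 ≤ t → ∫ s in (0 : ℝ)..t, u s 0 = W t)
    (x₀ : E 2) (x : ℝ → E 2) (hx : IsSolution field u x₀ x) (t : ℝ) (ht : 0 ≤ t) :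
    x t = φ t x₀ u := by
  have h0 : ∀ s, 0 ≤ s → x s 0 = x₀ 0 + W s := by
    intro s hs
    have := (hx.2 s hs 0).2
    simp only [field_zero] at this
    rw [this, h s hs]
  have hyc : Continuous fun s => x (max s 0) 1 := by
    have h1 : Continuous fun s => x (max s 0) := by
      apply hx.1.comp_continuous (by fun_prop)
      intro s
      exact le_max_right s 0
    exact (EuclideanSpace.proj (𝕜 := ℝ) (1 : Fin 2)).continuous.comp h1
  set y : ℝ → ℝ := fun s => x (max s 0) 1 with hy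
  set p : ℝ → ℝ := fun s => -((1 + (x₀ 0 + W s) ^ 2) * y s) with hp
  have hpc : Continuous p := by fun_prop
  set F : ℝ → ℝ := fun s => x₀ 1 + ∫ r in (0 : ℝ)..s, p r with hF
  have hFd : ∀ s, HasDerivAt F (p s) s := fun s =>
    (intervalIntegral.integral_hasDerivAt_right (hpc.intervalIntegrable _ _)
      (hpc.stronglyMeasurableAtFilter _ _) hpc.continuousAt).const_add _
  have hFx : ∀ s, 0 ≤ s → F s = x s 1 := by
    intro s hs
    rw [(hx.2 s hs 1).2]
    change x₀ 1 + ∫ r in (0 : ℝ)..s, p r = _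
    congr 1
    apply intervalIntegral.integral_congr
    intro r hr
    rw [uIcc_of_le hs] at hr
    simp only [hp, hy, field_one, max_eq_left hr.1, h0 r hr.1]
  have hyF : ∀ s, 0 ≤ s → y s = F s := by
    intro s hs
    rw [hFx s hs, hy]
    simp only [max_eq_left hs]
  have hGd := hasDerivAt_G hW (x₀ 0)
  have hKd : ∀ s, 0 ≤ s → HasDerivAt (fun s => F s * Real.exp (G W (x₀ 0) s)) 0 s := by
    intro s hs
    have := (hFd s).mul (hGd s).exp
    refine this.congr_deriv ?_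
    have e : p s = -((1 + (x₀ 0 + W s) ^ 2) * F s) := by rw [← hyF s hs]
    rw [e]
    ring
  have hconst := constant_of_has_deriv_right_zero
    (f := fun s => F s * Real.exp (G W (x₀ 0) s)) (a := 0) (b := t)
    (fun s hs => (hKd s hs.1).continuousAt.continuousWithinAt)
    (fun s hs => (hKd s hs.1).hasDerivWithinAt) t ⟨ht, le_rfl⟩
  have hF0 : F 0 = x₀ 1 := by simp [hF]
  have hG0 : G W (x₀ 0) 0 = 0 := by simp [G]
  simp only [hF0, hG0, Real.exp_zero, mul_one] at hconst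
  ext i
  fin_cases i
  · simp only [Fin.zero_eta, φ_zero, h0 t ht, h t ht]
  · simp only [Fin.mk_one, φ_one' h ht]
    rw [← hFx t ht, ← hconst, mul_assoc, ← Real.exp_add, add_neg_cancel, Real.exp_zero, mul_one]

lemma continuous_φ (hW : Continuous W) (h : ∀ t, 0 ≤ t → ∫ s in (0 : ℝ)..t, u s 0 = W t)
    (t : ℝ) (ht : 0 ≤ t) : Continuous fun x₀ : E 2 => φ t x₀ u := by
  have hc0 : Continuous fun x₀ : E 2 => x₀ 0 := (EuclideanSpace.proj (𝕜 := ℝ) (0 : Fin 2)).continuous
  have hc1 : Continuous fun x₀ : E 2 => x₀ 1 := (EuclideanSpace.proj (𝕜 := ℝ) (1 : Fin 2)).continuous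
  have hG : Continuous fun x₀ : E 2 => G W (x₀ 0) t := by
    unfold G
    apply intervalIntegral.continuous_parametric_intervalIntegral_of_continuous'
    fun_prop
  apply (PiLp.continuous_toLp 2 _).comp
  apply continuous_pi
  intro i
  fin_cases i
  · simpa using by fun_prop
  · have : Continuous fun x₀ : E 2 => x₀ 1 * Real.exp (-G W (x₀ 0) t) := by fun_prop
    apply this.congr
    intro x₀
    rw [← φ_one' h ht, φ_one]
    simp

end Flow

lemma isSolutionMap_φ : IsSolutionMap field U φ where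
  isSolution u hu x₀ := by
    obtain ⟨W, h1, h2, h3⟩ := exists_W hu
    exact isSolution_φ h1 h2 h3 x₀
  unique u hu x₀ x hx t ht := by
    obtain ⟨W, h1, h2, h3⟩ := exists_W hu
    exact unique_φ h1 h2 x₀ x hx t ht
  continuous u hu t ht := by
    obtain ⟨W, h1, h2, h3⟩ := exists_W hu
    exact continuous_φ h1 h2 t ht

/-! ### The controls used -/

/-- the control steering the first coordinate from `c` to `0` along `c e^{-t}` -/
noncomputable def ctrl (c : ℝ) (s : ℝ) : E 1 := !₂[-(c * Real.exp (-s))]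

lemma ctrl_zero (c s : ℝ) : ctrl c s 0 = -(c * Real.exp (-s)) := by simp [ctrl]

lemma admissible_ctrl {c : ℝ} (hc : |c| ≤ 1) : Admissible U (ctrl c) := by
  constructor
  · apply Continuous.aestronglyMeasurable
    unfold ctrl
    apply (PiLp.continuous_toLp 2 _).comp
    apply continuous_pi
    intro i
    fin_cases i
    simpa using by fun_prop
  · filter_upwards [ae_restrict_mem measurableSet_Ici] with s hs
    rw [U, mem_closedBall_zero_iff, EuclideanSpace.norm_eq, Fin.sum_univ_one, ctrl_zero,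
      Real.norm_eq_abs, sq_abs, Real.sqrt_sq_eq_abs, abs_neg, abs_mul, Real.abs_exp]
    have : Real.exp (-s) ≤ 1 := Real.exp_le_one_iff.2 (by simpa using hs)
    exact mul_le_one₀ hc (Real.exp_pos _).le this

lemma integral_ctrl (c t : ℝ) : ∫ s in (0 : ℝ)..t, ctrl c s 0 = c * Real.exp (-t) - c := by
  simp only [ctrl_zero]
  rw [intervalIntegral.integral_eq_sub_of_hasDerivAt (f := fun s => c * Real.exp (-s))]
  · simp
  · intro s _
    have := ((hasDerivAt_neg s).exp).const_mul c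
    refine this.congr_deriv ?_
    ring
  · exact (by fun_prop : Continuous fun s => -(c * Real.exp (-s))).intervalIntegrable _ _

lemma norm_φ_ctrl_le (c : ℝ) (x₀ : E 2) {t : ℝ} (ht : 0 ≤ t) :
    ‖φ t x₀ (ctrl c)‖ ≤ ‖x₀‖ * Real.exp (-t) + |x₀ 0 - c| * (1 - Real.exp (-t)) := by
  have he : Real.exp (-t) ≤ 1 := Real.exp_le_one_iff.2 (by simpa using ht)
  have h1 : |φ t x₀ (ctrl c) 1| ≤ |x₀ 1| * Real.exp (-t) := by
    rw [φ_one, abs_mul, Real.abs_exp]
    apply mul_le_mul_of_nonneg_left _ (abs_nonneg _)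
    apply Real.exp_le_exp.2
    apply neg_le_neg
    simp only [integral_ctrl]
    have e : ∫ s in (0 : ℝ)..t, (1 : ℝ) = t := by simp
    calc t = ∫ s in (0 : ℝ)..t, (1 : ℝ) := e.symm
      _ ≤ _ := by
        apply intervalIntegral.integral_mono_on ht
        · exact continuous_const.intervalIntegrable _ _
        · exact (by fun_prop : Continuous fun s =>
            1 + (x₀ 0 + (c * Real.exp (-s) - c)) ^ 2).intervalIntegrable _ _
        · intro s _
          nlinarith [sq_nonneg (x₀ 0 + (c * Real.exp (-s) - c))]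
  have h2 : φ t x₀ (ctrl c) = !₂[x₀ 0 * Real.exp (-t), φ t x₀ (ctrl c) 1] +
      !₂[(x₀ 0 - c) * (1 - Real.exp (-t)), 0] := by
    ext i
    fin_cases i
    · simp only [Fin.zero_eta, φ_zero, integral_ctrl]
      simp
      ring
    · simp
  have h3 : ‖(!₂[x₀ 0 * Real.exp (-t), φ t x₀ (ctrl c) 1] : E 2)‖ ≤ ‖x₀‖ * Real.exp (-t) := by
    rw [EuclideanSpace.norm_eq, EuclideanSpace.norm_eq, Fin.sum_univ_two, Fin.sum_univ_two]
    have hE : ∀ a : ℝ, 0 ≤ a → √a * Real.exp (-t) = √(a * Real.exp (-t) ^ 2) := by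
      intro a ha
      rw [Real.sqrt_mul ha, Real.sqrt_sq (Real.exp_pos _).le]
    rw [hE _ (by positivity)]
    apply Real.sqrt_le_sqrt
    have h4 : |φ t x₀ (ctrl c) 1| ^ 2 ≤ (|x₀ 1| * Real.exp (-t)) ^ 2 :=
      pow_le_pow_left₀ (abs_nonneg _) h1 2
    simp only [Real.norm_eq_abs, sq_abs] at h4 ⊢
    rw [mul_pow, sq_abs] at h4
    simp
    nlinarith
  have h5 : ‖(!₂[(x₀ 0 - c) * (1 - Real.exp (-t)), 0] : E 2)‖ = |x₀ 0 - c| * (1 - Real.exp (-t)) := by
    rw [EuclideanSpace.norm_eq, Fin.sum_univ_two]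
    simp only [Real.norm_eq_abs, sq_abs]
    simp
    rw [Real.sqrt_sq_eq_abs, abs_mul, abs_of_nonneg (by linarith : 0 ≤ 1 - Real.exp (-t))]
  rw [h2]
  refine (norm_add_le _ _).trans ?_
  rw [h5]
  exact add_le_add h3 le_rfl

lemma infDist_zero (x : E 2) : Metric.infDist x {0} = ‖x‖ := by
  rw [Metric.infDist_singleton, dist_zero_right]

lemma abs_coord_le {x : E 2} (hx : x ∈ Γ) : |x 0| ≤ 1 := by
  have h1 : ‖x‖ ≤ 1 := by simpa [Γ] using hx
  exact (PiLp.norm_apply_le x 0).trans h1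

lemma stabilizable : Stabilizable U φ ζ Γ {0} := by
  intro x₀ hx₀
  refine ⟨ctrl (x₀ 0), admissible_ctrl (abs_coord_le hx₀), fun t ht => ?_⟩
  have := norm_φ_ctrl_le (x₀ 0) x₀ ht
  rw [sub_self, abs_zero, zero_mul, add_zero] at this
  rw [infDist_zero, infDist_zero, ζ]
  exact this

/-- the finite families of controls: centers at distance `δ` -/
noncomputable def family (δ : ℝ) : Set (ℝ → E 1) :=
  (fun j : ℕ => ctrl (-1 + j * δ)) '' (Set.Iic ⌊2 / δ⌋₊)

lemma encard_family_le (δ : ℝ) : (family δ).encard ≤ (⌊2 / δ⌋₊ + 1 : ℕ) := by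
  refine (encard_image_le _ _).trans ?_
  have h : (Set.Iic ⌊2 / δ⌋₊).encard = (⌊2 / δ⌋₊ + 1 : ℕ) := by
    rw [← Finset.coe_Iic, encard_coe_eq_coe_finsetCard, Nat.card_Iic]
  exact h.le

lemma family_admissible {δ : ℝ} (hδ : 0 < δ) : ∀ u ∈ family δ, Admissible U u := by
  rintro u ⟨j, hj, rfl⟩
  apply admissible_ctrl
  have h1 : (j : ℝ) ≤ 2 / δ := (Nat.cast_le.2 hj).trans (Nat.floor_le (by positivity))
  rw [le_div_iff₀ hδ] at h1
  have h2 : 0 ≤ (j : ℝ) * δ := by positivity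
  rw [abs_le]
  constructor <;> linarith

lemma exists_center {δ a : ℝ} (hδ : 0 < δ) (ha : |a| ≤ 1) :
    ∃ c, ctrl c ∈ family δ ∧ |a - c| ≤ δ := by
  rw [abs_le] at ha
  have h0 : 0 ≤ (a + 1) / δ := div_nonneg (by linarith) hδ.le
  refine ⟨-1 + ⌊(a + 1) / δ⌋₊ * δ, ⟨_, ?_, rfl⟩, ?_⟩
  · apply Nat.floor_le_floor
    gcongr
    linarith
  · have h1 := Nat.floor_le h0
    have h2 := Nat.lt_floor_add_one ((a + 1) / δ)
    rw [le_div_iff₀ hδ] at h1
    rw [div_lt_iff₀ hδ] at h2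
    rw [abs_le]
    constructor <;> linarith

lemma family_practicallySpanning {τ ε : ℝ} (hε : 0 < ε) :
    PracticallySpanning U φ ζ Γ {0} τ ε (family ε) := by
  refine ⟨family_admissible hε, fun x₀ hx₀ => ?_⟩
  obtain ⟨c, hc, hca⟩ := exists_center hε (abs_coord_le hx₀)
  refine ⟨ctrl c, hc, fun t ht => ?_⟩
  rw [infDist_zero, infDist_zero, ζ]
  have h1 := norm_φ_ctrl_le c x₀ ht.1
  have he : Real.exp (-t) ≤ 1 := Real.exp_le_one_iff.2 (by simpa using ht.1)
  have h2 : |x₀ 0 - c| * (1 - Real.exp (-t)) ≤ ε * (1 - Real.exp (-t)) :=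
    mul_le_mul_of_nonneg_right hca (by linarith)
  have h3 := mul_pos hε (Real.exp_pos (-t))
  linarith

lemma family_spanning {τ ε : ℝ} (hε : 0 < ε) :
    Spanning U φ ζ Γ {0} τ ε (family (ε * Real.exp (-τ))) := by
  have hδ : 0 < ε * Real.exp (-τ) := by positivity
  refine ⟨family_admissible hδ, fun x₀ hx₀ => ?_⟩
  obtain ⟨c, hc, hca⟩ := exists_center hδ (abs_coord_le hx₀)
  refine ⟨ctrl c, hc, fun t ht => ?_⟩
  rw [infDist_zero, infDist_zero, ζ]
  have h1 := norm_φ_ctrl_le c x₀ ht.1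
  have he : Real.exp (-t) ≤ 1 := Real.exp_le_one_iff.2 (by simpa using ht.1)
  have he2 : Real.exp (-τ) ≤ Real.exp (-t) := Real.exp_le_exp.2 (neg_le_neg ht.2)
  have h2 : |x₀ 0 - c| * (1 - Real.exp (-t)) ≤ ε * Real.exp (-τ) * 1 :=
    mul_le_mul hca (by linarith [Real.exp_pos (-t)]) (by linarith) hδ.le
  have h3 : ε * Real.exp (-τ) ≤ ε * Real.exp (-t) := mul_le_mul_of_nonneg_left he2 hε.le
  linarith

/-- counting: a spanning set has at least `e ^ τ / (1 + ε)` elements -/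
lemma le_encard {τ ε : ℝ} (hτ : 0 ≤ τ) (hε : 0 < ε) {S : Set (ℝ → E 1)}
    (hS : Spanning U φ ζ Γ {0} τ ε S) : (⌈Real.exp τ / (1 + ε)⌉₊ : ℕ∞) ≤ S.encard := by
  rcases S.finite_or_infinite with hfin | hinf
  swap
  · rw [hinf.encard_eq]; exact le_top
  set T := hfin.toFinset with hT
  have hcard : S.encard = T.card := by rw [hT, hfin.encard_eq_coe_toFinset_card]
  rw [hcard]
  have hsub : Icc (-1 : ℝ) 1 ⊆ ⋃ u ∈ T, Icc ((-∫ s in (0 : ℝ)..τ, u s 0) - (1 + ε) * Real.exp (-τ))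
      ((-∫ s in (0 : ℝ)..τ, u s 0) + (1 + ε) * Real.exp (-τ)) := by
    intro a ha
    have hn : ‖(!₂[a, 0] : E 2)‖ = |a| := by
      rw [EuclideanSpace.norm_eq, Fin.sum_univ_two]
      simp [Real.sqrt_sq_eq_abs]
    have ha' : |a| ≤ 1 := abs_le.2 ha
    obtain ⟨u, hu, h⟩ := hS.2 !₂[a, 0] (by
      rw [Γ, mem_closedBall_zero_iff, hn]; exact ha')
    have h1 := h τ ⟨hτ, le_rfl⟩
    rw [infDist_zero, infDist_zero, hn, ζ] at h1
    have h2 := (PiLp.norm_apply_le (φ τ !₂[a, 0] u) 0).trans h1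
    rw [φ_zero, Real.norm_eq_abs] at h2
    have h3 : (|a| + ε) * Real.exp (-τ) ≤ (1 + ε) * Real.exp (-τ) :=
      mul_le_mul_of_nonneg_right (by linarith) (Real.exp_pos _).le
    have h4 := abs_le.1 (h2.trans h3)
    simp only [mem_iUnion]
    refine ⟨u, by rw [hT, hfin.mem_toFinset]; exact hu, ?_⟩
    have e : (!₂[a, 0] : E 2) 0 = a := by simp
    rw [e] at h4
    constructor <;> linarith [h4.1, h4.2]
  have hvol := (measure_mono hsub).trans (measure_biUnion_finset_le (μ := volume) T _)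
  simp only [Real.volume_Icc] at hvol
  have h5 : ∀ c : ℝ, c + (1 + ε) * Real.exp (-τ) - (c - (1 + ε) * Real.exp (-τ)) =
      2 * (1 + ε) * Real.exp (-τ) := fun c => by ring
  simp only [h5, Finset.sum_const, nsmul_eq_mul] at hvol
  rw [← ENNReal.ofReal_natCast, ← ENNReal.ofReal_mul (by positivity),
    ENNReal.ofReal_le_ofReal_iff (by positivity)] at hvol
  rw [Nat.cast_le, Nat.ceil_le, div_le_iff₀ (by positivity)]
  have h6 : Real.exp τ * Real.exp (-τ) = 1 := by rw [← Real.exp_add]; simp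
  have h7 : 1 ≤ (T.card : ℝ) * ((1 + ε) * Real.exp (-τ)) := by linarith
  calc Real.exp τ = Real.exp τ * 1 := (mul_one _).symm
    _ ≤ Real.exp τ * ((T.card : ℝ) * ((1 + ε) * Real.exp (-τ))) :=
        mul_le_mul_of_nonneg_left h7 (Real.exp_pos _).le
    _ = (Real.exp τ * Real.exp (-τ)) * ((T.card : ℝ) * (1 + ε)) := by ring
    _ = (T.card : ℝ) * (1 + ε) := by rw [h6, one_mul]

/-! ### The two entropies -/

lemma log_nat_div {n : ℕ} (hn : 0 < n) (τ : ℝ) :
    ENNReal.log (((n : ℕ∞) : ENNReal)) / (τ : EReal) = ((Real.log n / τ : ℝ) : EReal) := by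
  have h : (((n : ℕ∞) : ENNReal)) = ENNReal.ofReal n := by simp
  rw [h, ENNReal.log_ofReal_of_pos (by exact_mod_cast hn), EReal.coe_div]

lemma rate_eq {r : ℝ → ℕ∞} {lo up : ℝ → ℕ} {L : ℝ} (hlo : ∀ τ, 0 < τ → 0 < lo τ)
    (h1 : ∀ τ, 0 < τ → (lo τ : ℕ∞) ≤ r τ) (h2 : ∀ τ, 0 < τ → r τ ≤ (up τ : ℕ∞))
    (hl : Tendsto (fun τ => Real.log (lo τ) / τ) atTop (𝓝 L))
    (hu : Tendsto (fun τ => Real.log (up τ) / τ) atTop (𝓝 L)) : rate r = L := by
  unfold rate
  apply Tendsto.limsup_eq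
  have hl' : Tendsto (fun τ : ℝ => ((Real.log (lo τ) / τ : ℝ) : EReal)) atTop (𝓝 (L : EReal)) :=
    (continuous_coe_real_ereal.tendsto L).comp hl
  have hu' : Tendsto (fun τ : ℝ => ((Real.log (up τ) / τ : ℝ) : EReal)) atTop (𝓝 (L : EReal)) :=
    (continuous_coe_real_ereal.tendsto L).comp hu
  apply tendsto_of_tendsto_of_tendsto_of_le_of_le' hl' hu'
  · filter_upwards [eventually_gt_atTop 0] with τ hτ
    rw [← log_nat_div (hlo τ hτ)]
    apply EReal.div_le_div_right_of_nonneg (by exact_mod_cast hτ.le)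
    apply ENNReal.log_le_log
    exact ENat.toENNReal_le.2 (h1 τ hτ)
  · filter_upwards [eventually_gt_atTop 0] with τ hτ
    have : 0 < up τ := by
      have := (Nat.cast_le.1 ((h1 τ hτ).trans (h2 τ hτ)) : lo τ ≤ up τ)
      exact (hlo τ hτ).trans_le this
    rw [← log_nat_div this]
    apply EReal.div_le_div_right_of_nonneg (by exact_mod_cast hτ.le)
    apply ENNReal.log_le_log
    exact ENat.toENNReal_le.2 (h2 τ hτ)

lemma hps_eq {ε : ℝ} (hε : 0 < ε) : hps U φ ζ Γ {0} ε = 0 := by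
  unfold hps
  have := rate_eq (r := fun τ => minCard (PracticallySpanning U φ ζ Γ {0} τ ε)) (lo := fun _ => 1)
    (up := fun _ => ⌊2 / ε⌋₊ + 1) (L := 0) (fun _ _ => one_pos) ?_ ?_ ?_ ?_
  · simpa using this
  · intro τ _
    apply le_iInf₂
    intro S hS
    obtain ⟨u, hu, _⟩ := hS.2 0 (by simp [Γ])
    have : S.Nonempty := ⟨u, hu⟩
    simpa using one_le_encard_iff_nonempty.2 this
  · intro τ _
    exact (iInf₂_le _ (family_practicallySpanning hε)).trans (encard_family_le ε)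
  · simp
  · exact tendsto_const_nhds.div_atTop tendsto_id

lemma hs_eq {ε : ℝ} (hε : 0 < ε) : hs U φ ζ Γ {0} ε = 1 := by
  unfold hs
  have := rate_eq (r := fun τ => minCard (Spanning U φ ζ Γ {0} τ ε))
    (lo := fun τ => ⌈Real.exp τ / (1 + ε)⌉₊)
    (up := fun τ => ⌊2 / (ε * Real.exp (-τ))⌋₊ + 1) (L := 1) ?_ ?_ ?_ ?_ ?_
  · simpa using this
  · intro τ _
    exact Nat.ceil_pos.2 (by positivity)
  · intro τ hτ
    apply le_iInf₂
    intro S hS
    exact le_encard hτ.le hε hS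
  · intro τ _
    exact (iInf₂_le _ (family_spanning hε)).trans (encard_family_le _)
  · have hlow : Tendsto (fun τ : ℝ => 1 - Real.log (1 + ε) / τ) atTop (𝓝 1) := by
      have : Tendsto (fun τ : ℝ => 1 - Real.log (1 + ε) / τ) atTop (𝓝 (1 - 0)) :=
        tendsto_const_nhds.sub (tendsto_const_nhds.div_atTop tendsto_id)
      rwa [sub_zero] at this
    have hupp : Tendsto (fun τ : ℝ => 1 + Real.log 2 / τ) atTop (𝓝 1) := by
      have : Tendsto (fun τ : ℝ => 1 + Real.log 2 / τ) atTop (𝓝 (1 + 0)) :=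
        tendsto_const_nhds.add (tendsto_const_nhds.div_atTop tendsto_id)
      rwa [add_zero] at this
    apply tendsto_of_tendsto_of_tendsto_of_le_of_le' hlow hupp
    · filter_upwards [eventually_gt_atTop 0] with τ hτ
      have h1 : Real.exp τ / (1 + ε) ≤ (⌈Real.exp τ / (1 + ε)⌉₊ : ℝ) := Nat.le_ceil _
      have h2 := Real.log_le_log (by positivity) h1
      rw [Real.log_div (by positivity) (by positivity), Real.log_exp] at h2
      rw [le_div_iff₀ hτ, sub_mul, div_mul_cancel₀ _ hτ.ne']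
      linarith
    · filter_upwards [eventually_gt_atTop 0] with τ hτ
      have h1 : (⌈Real.exp τ / (1 + ε)⌉₊ : ℝ) ≤ 2 * Real.exp τ := by
        have e1 := (Nat.ceil_lt_add_one (a := Real.exp τ / (1 + ε)) (by positivity)).le
        have e2 : Real.exp τ / (1 + ε) ≤ Real.exp τ := div_le_self (Real.exp_pos _).le (by linarith)
        have e3 : 1 ≤ Real.exp τ := Real.one_le_exp hτ.le
        linarith
      have h2 := Real.log_le_log (by exact_mod_cast Nat.ceil_pos.2 (by positivity)) h1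
      rw [Real.log_mul two_ne_zero (Real.exp_pos _).ne', Real.log_exp] at h2
      rw [div_le_iff₀ hτ, add_mul, div_mul_cancel₀ _ hτ.ne']
      linarith
  · have hlow : Tendsto (fun τ : ℝ => 1 + Real.log (2 / ε) / τ) atTop (𝓝 1) := by
      have : Tendsto (fun τ : ℝ => 1 + Real.log (2 / ε) / τ) atTop (𝓝 (1 + 0)) :=
        tendsto_const_nhds.add (tendsto_const_nhds.div_atTop tendsto_id)
      rwa [add_zero] at this
    have hupp : Tendsto (fun τ : ℝ => 1 + Real.log (2 / ε + 1) / τ) atTop (𝓝 1) := by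
      have : Tendsto (fun τ : ℝ => 1 + Real.log (2 / ε + 1) / τ) atTop (𝓝 (1 + 0)) :=
        tendsto_const_nhds.add (tendsto_const_nhds.div_atTop tendsto_id)
      rwa [add_zero] at this
    have hE : ∀ τ : ℝ, 2 / (ε * Real.exp (-τ)) = 2 / ε * Real.exp τ := by
      intro τ
      rw [Real.exp_neg]
      field_simp
    apply tendsto_of_tendsto_of_tendsto_of_le_of_le' hlow hupp
    · filter_upwards [eventually_gt_atTop 0] with τ hτ
      have h1 : 2 / ε * Real.exp τ ≤ ((⌊2 / (ε * Real.exp (-τ))⌋₊ + 1 : ℕ) : ℝ) := by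
        rw [hE]
        push_cast
        exact (Nat.lt_floor_add_one _).le
      have h2 := Real.log_le_log (by positivity) h1
      rw [Real.log_mul (by positivity) (Real.exp_pos _).ne', Real.log_exp] at h2
      rw [le_div_iff₀ hτ, add_mul, div_mul_cancel₀ _ hτ.ne']
      linarith
    · filter_upwards [eventually_gt_atTop 0] with τ hτ
      have h1 : ((⌊2 / (ε * Real.exp (-τ))⌋₊ + 1 : ℕ) : ℝ) ≤ (2 / ε + 1) * Real.exp τ := by
        rw [hE]
        push_cast
        have e1 := Nat.floor_le (a := 2 / ε * Real.exp τ) (by positivity)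
        have e3 : 1 ≤ Real.exp τ := Real.one_le_exp hτ.le
        linarith
      have h2 := Real.log_le_log (by exact_mod_cast Nat.succ_pos _) h1
      rw [Real.log_mul (by positivity) (Real.exp_pos _).ne', Real.log_exp] at h2
      rw [div_le_iff₀ hτ, add_mul, div_mul_cancel₀ _ hτ.ne']
      linarith

/-- **The practical stabilization entropy can be smaller than the stabilization entropy.**  For the
system `x₁' = u`, `x₂' = -(1 + x₁ ^ 2) x₂` with control range `[-1, 1]`, for `Λ = {0}`, `Γ` the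
closed unit disc and `ζ (r, t) = r e^{-t}`: all the assumptions hold, the system is stabilizable,
and the practical stabilization entropy is `0`, while the stabilization entropy is `1`. -/
theorem result :
    IsCompact U ∧ IsCompact Γ ∧ IsCompact ({0} : Set (E 2)) ∧
    IsSolutionMap field U φ ∧ IsKL ζ ∧ Stabilizable U φ ζ Γ {0} ∧
    (∀ ε > 0, hps U φ ζ Γ {0} ε = 0) ∧ (∀ ε > 0, hs U φ ζ Γ {0} ε = 1) ∧
    Tendsto (fun ε => hps U φ ζ Γ {0} ε) (𝓝[>] 0) (𝓝 0) ∧
    Tendsto (fun ε => hs U φ ζ Γ {0} ε) (𝓝[>] 0) (𝓝 1) := by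
  refine ⟨isCompact_closedBall _ _, isCompact_closedBall _ _, isCompact_singleton,
    isSolutionMap_φ, isKL_ζ, stabilizable, fun ε hε => hps_eq hε, fun ε hε => hs_eq hε, ?_, ?_⟩
  · apply tendsto_const_nhds.congr'
    filter_upwards [self_mem_nhdsWithin] with ε hε
    exact (hps_eq hε).symm
  · apply tendsto_const_nhds.congr'
    filter_upwards [self_mem_nhdsWithin] with ε hε
    exact (hs_eq hε).symm

end Pool.Agent.Results.MP_395e41_an.EntropyGap
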